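import Pool.Agent.Q145.SZ.Stm2

/-!
Project SZ (helper145), H1: the first moment input from the mean squares of character sums.
`parseval` and `sum_char` are adapted from `Q195/HV/OD.lean`.
-/

set_option autoImplicit false

namespace Pool.Agent.Q98.SZ

open Finset Filter
open Pool.Agent.Q145.SZ
open Pool.Agent.H807R2.Dav (ee)

section
variable {W : ℕ} [NeZero W]

/-- the sum of `wt` over the integers of `(n, n + X]` in a class -/
noncomputable def th (X n : ℕ) (a : ZMod W) : ℝ :=
  ∑ u ∈ (Ioc n (n + X)).filter (fun u : ℕ => (u : ZMod W) = a), wt u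

omit [NeZero W] in
theorem sum_cls (X n : ℕ) (β : ZMod W) : ∑ s ∈ cls X β, wt (n + s) = th X n ((n : ZMod W) + β) := by
  unfold cls th
  refine sum_bij (fun s _ => n + s) ?_ ?_ ?_ ?_
  · intro s hs
    rw [mem_filter, mem_Icc] at hs
    rw [mem_filter, mem_Ioc]
    refine ⟨⟨by omega, by omega⟩, ?_⟩
    rw [Nat.cast_add, hs.2]
  · intro s _ t _ h
    omega
  · intro u hu
    rw [mem_filter, mem_Ioc] at hu
    refine ⟨u - n, ?_, by omega⟩
    rw [mem_filter, mem_Icc]
    refine ⟨⟨by omega, by omega⟩, ?_⟩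
    rw [Nat.cast_sub (by omega), hu.2]
    ring
  · intro s _
    rfl

theorem th_nonunit {X n : ℕ} (hn : W ≤ n) {a : ZMod W} (ha : ¬ IsUnit a) : th X n a = 0 := by
  unfold th
  refine sum_eq_zero fun u hu => ?_
  rw [mem_filter, mem_Ioc] at hu
  unfold wt
  rw [if_neg]
  intro hp
  refine ha ?_
  rw [← hu.2, ZMod.isUnit_iff_coprime]
  refine (Nat.Prime.coprime_iff_not_dvd hp).2 fun hd => ?_
  have := Nat.le_of_dvd (Nat.pos_of_ne_zero (NeZero.ne W)) hd
  omega

/-- the number of elements of a class -/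
theorem cls_card (X : ℕ) (c : ZMod W) :
    |(X : ℝ) / W - ((cls X c).card : ℝ)| ≤ 1 := by
  have hW : 0 < W := Nat.pos_of_ne_zero (NeZero.ne W)
  have h1 : cls X c = (Ioc 0 X).filter (fun n : ℕ => n ≡ c.val [MOD W]) := by
    unfold cls
    ext n
    rw [mem_filter, mem_filter, mem_Icc, mem_Ioc, ← ZMod.natCast_eq_natCast_iff,
      ZMod.natCast_zmod_val]
    constructor
    · rintro ⟨⟨h, h'⟩, h''⟩
      exact ⟨⟨by omega, h'⟩, h''⟩
    · rintro ⟨⟨h, h'⟩, h''⟩
      exact ⟨⟨by omega, h'⟩, h''⟩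
  have h2 := Nat.Ioc_filter_modEq_card 0 X hW c.val
  rw [h1]
  set N := ((Ioc 0 X).filter (fun n : ℕ => n ≡ c.val [MOD W])).card with hN
  have hWq : (0 : ℚ) < W := by exact_mod_cast hW
  have e2 := Int.sub_one_lt_floor (((X : ℚ) - c.val) / W)
  have e3 := Int.floor_le ((((0 : ℕ) : ℚ) - c.val) / W)
  have e2' := Int.floor_le (((X : ℚ) - c.val) / W)
  have e3' := Int.sub_one_lt_floor ((((0 : ℕ) : ℚ) - c.val) / W)
  have e4 : ((X : ℚ) - c.val) / W - (((0 : ℕ) : ℚ) - c.val) / W = (X : ℚ) / W := by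
    push_cast
    field_simp
    ring
  have hX0 : (0 : ℚ) ≤ (X : ℚ) / W := by positivity
  have h5 : (X : ℚ) / W - 1 ≤ (N : ℚ) ∧ (N : ℚ) ≤ (X : ℚ) / W + 1 := by
    have e1 : ((N : ℤ) : ℚ) = ((max (⌊((X : ℚ) - c.val) / W⌋ - ⌊(((0 : ℕ) : ℚ) - c.val) / W⌋) 0 : ℤ) : ℚ) := by
      rw [← h2]
    rw [Int.cast_natCast] at e1
    rw [e1]
    push_cast at *
    constructor
    · refine le_trans ?_ (le_max_left _ _)
      linarith
    · refine max_le ?_ (by linarith)
      linarith
  have h6 := (Rat.cast_le (K := ℝ)).2 h5.1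
  have h7 := (Rat.cast_le (K := ℝ)).2 h5.2
  push_cast at h6 h7
  rw [abs_le]
  constructor <;> linarith

/-! ### characters -/

omit [NeZero W] in
theorem conj_char (χ : DirichletCharacter ℂ W) {a : ZMod W} (ha : IsUnit a) :
    (starRingEnd ℂ) (χ a) = χ a⁻¹ := by
  have h1 : χ a * χ a⁻¹ = 1 := by
    rw [← map_mul, ZMod.mul_inv_of_unit a ha, map_one]
  have h2 : ‖χ a‖ = 1 := by
    obtain ⟨u, rfl⟩ := ha
    exact DirichletCharacter.unit_norm_eq_one χ u
  have h3 : χ a * (starRingEnd ℂ) (χ a) = 1 := by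
    rw [Complex.mul_conj, Complex.normSq_eq_norm_sq, h2]
    simp
  have h4 : χ a ≠ 0 := by
    intro h
    rw [h, norm_zero] at h2
    exact zero_ne_one h2
  exact mul_left_cancel₀ h4 (h3.trans h1.symm)

open Classical in
theorem parseval (b : ZMod W → ℝ) :
    ∑ χ : DirichletCharacter ℂ W,
      ‖∑ a ∈ univ.filter (fun a : ZMod W => IsUnit a), (b a : ℂ) * χ a‖ ^ 2 =
    (Nat.totient W : ℝ) * ∑ a ∈ univ.filter (fun a : ZMod W => IsUnit a), b a ^ 2 := by
  set A := univ.filter (fun a : ZMod W => IsUnit a) with hA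
  have hu : ∀ a ∈ A, IsUnit a := by
    intro a ha
    rw [hA, Finset.mem_filter] at ha
    exact ha.2
  have key : ((∑ χ : DirichletCharacter ℂ W, ‖∑ a ∈ A, (b a : ℂ) * χ a‖ ^ 2 : ℝ) : ℂ) =
      (((Nat.totient W : ℝ) * ∑ a ∈ A, b a ^ 2 : ℝ) : ℂ) := by
    have e1 : ∀ χ : DirichletCharacter ℂ W,
        ((‖∑ a ∈ A, (b a : ℂ) * χ a‖ ^ 2 : ℝ) : ℂ) =
        ∑ a ∈ A, ∑ a' ∈ A, (b a : ℂ) * (b a' : ℂ) * (χ (a'⁻¹) * χ a) := by
      intro χ
      rw [← Complex.normSq_eq_norm_sq, ← Complex.mul_conj, map_sum, Finset.sum_mul_sum]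
      apply Finset.sum_congr rfl
      intro a _
      apply Finset.sum_congr rfl
      intro a' ha'
      rw [map_mul, Complex.conj_ofReal, conj_char χ (hu a' ha')]
      ring
    rw [Complex.ofReal_sum]
    simp_rw [e1]
    rw [Finset.sum_comm]
    have e2 : ∀ a ∈ A, ∑ χ : DirichletCharacter ℂ W, ∑ a' ∈ A,
        (b a : ℂ) * (b a' : ℂ) * (χ (a'⁻¹) * χ a) =
        (Nat.totient W : ℂ) * (b a : ℂ) ^ 2 := by
      intro a ha
      rw [Finset.sum_comm]
      have e3 : ∀ a' ∈ A, ∑ χ : DirichletCharacter ℂ W,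
          (b a : ℂ) * (b a' : ℂ) * (χ (a'⁻¹) * χ a) =
          if a' = a then (Nat.totient W : ℂ) * (b a : ℂ) ^ 2 else 0 := by
        intro a' ha'
        rw [← Finset.mul_sum, DirichletCharacter.sum_char_inv_mul_char_eq ℂ (hu a' ha')]
        by_cases h : a' = a
        · rw [if_pos h, if_pos h, h]
          ring
        · rw [if_neg h, if_neg h, mul_zero]
      rw [Finset.sum_congr rfl e3, Finset.sum_ite_eq' A a, if_pos ha]
    rw [Finset.sum_congr rfl e2, ← Finset.mul_sum]
    push_cast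
    rfl
  exact_mod_cast key

open Classical in
theorem sum_char (χ : DirichletCharacter ℂ W) :
    ∑ a ∈ univ.filter (fun a : ZMod W => IsUnit a), χ a =
      if χ = 1 then (Nat.totient W : ℂ) else 0 := by
  have h1 : ∑ a ∈ univ.filter (fun a : ZMod W => IsUnit a), χ a = ∑ a : ZMod W, χ a := by
    apply Finset.sum_subset (Finset.filter_subset _ _)
    intro a ha hn
    rw [Finset.mem_filter] at hn
    apply MulChar.map_nonunit
    exact fun h => hn ⟨ha, h⟩
  rw [h1]
  by_cases h : χ = 1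
  · rw [if_pos h, h]
    rw [MulChar.sum_one_eq_card_units, ZMod.card_units_eq_totient]
  · rw [if_neg h]
    exact MulChar.sum_eq_zero_of_ne_one h

open Classical in
theorem th_char (X n : ℕ) (χ : DirichletCharacter ℂ W) :
    ∑ a ∈ univ.filter (fun a : ZMod W => IsUnit a), (th X n a : ℂ) * χ a =
      ∑ u ∈ Ioc n (n + X), ((wt u : ℝ) : ℂ) * χ (u : ZMod W) := by
  have h1 : ∑ a ∈ univ.filter (fun a : ZMod W => IsUnit a), (th X n a : ℂ) * χ a =
      ∑ a : ZMod W, (th X n a : ℂ) * χ a := by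
    apply Finset.sum_subset (Finset.filter_subset _ _)
    intro a ha hn
    rw [Finset.mem_filter] at hn
    rw [MulChar.map_nonunit, mul_zero]
    exact fun h => hn ⟨ha, h⟩
  rw [h1]
  have h2 : ∀ a : ZMod W, (th X n a : ℂ) * χ a =
      ∑ u ∈ (Ioc n (n + X)).filter (fun u : ℕ => (u : ZMod W) = a), ((wt u : ℝ) : ℂ) * χ (u : ZMod W) := by
    intro a
    unfold th
    rw [Complex.ofReal_sum, sum_mul]
    refine sum_congr rfl fun u hu => ?_
    rw [mem_filter] at hu
    rw [hu.2]
  rw [sum_congr rfl fun a _ => h2 a]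
  exact sum_fiberwise (Ioc n (n + X)) (fun u : ℕ => (u : ZMod W)) _

/-- the character sum is the sum of the primitive character -/
theorem DC_prim {X n : ℕ} (hn : W ≤ n) (χ : DirichletCharacter ℂ W) :
    DC χ.primitiveCharacter n (n + X) 0 =
      ∑ u ∈ Ioc n (n + X), ((wt u : ℝ) : ℂ) * χ (u : ZMod W) - (if χ = 1 then (X : ℂ) else 0) := by
  unfold DC
  have h1 : ∀ u : ℕ, ee ((u : ℝ) * 0) = 1 := by
    intro u
    unfold Pool.Agent.H807R2.Dav.ee
    simp
  have h2 : ∀ u ∈ Ioc n (n + X), (((wt u : ℝ) : ℂ) * χ.primitiveCharacter (u : ZMod χ.conductor) -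
      (if χ.conductor = 1 then 1 else 0)) * ee ((u : ℝ) * 0) =
      ((wt u : ℝ) : ℂ) * χ (u : ZMod W) - (if χ.conductor = 1 then 1 else 0) := by
    intro u hu
    rw [h1, mul_one]
    congr 1
    by_cases hp : u.Prime
    · have hc : u.Coprime W := by
        refine (Nat.Prime.coprime_iff_not_dvd hp).2 fun hd => ?_
        have := Nat.le_of_dvd (Nat.pos_of_ne_zero (NeZero.ne W)) hd
        rw [mem_Ioc] at hu
        omega
      have h3 := χ.primitiveCharacter_apply_of_isCoprime (a := (u : ℤ)) (Nat.isCoprime_iff_coprime.2 hc)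
      rw [Int.cast_natCast, Int.cast_natCast] at h3
      rw [h3]
    · have : wt u = 0 := by
        unfold wt
        rw [if_neg hp]
      rw [this]
      simp
  rw [sum_congr rfl h2, sum_sub_distrib]
  congr 1
  rw [sum_const, Nat.card_Ioc]
  by_cases h : χ = 1
  · rw [if_pos h, if_pos (by rw [← DirichletCharacter.eq_one_iff_conductor_eq_one]; exact h)]
    simp
  · rw [if_neg h, if_neg (by rw [← DirichletCharacter.eq_one_iff_conductor_eq_one]; exact h)]
    simp

/-- the sum over all characters modulo `W` is at most the weighted sum over primitive characters -/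
theorem prim_sum {X n F : ℕ} (hF : W ≤ F) :
    ∑ χ : DirichletCharacter ℂ W, ‖DC χ.primitiveCharacter n (n + X) 0‖ ^ 2 ≤
      ∑ f ∈ Icc 1 F, ((f : ℝ) / Nat.totient f) * ∑ χ ∈ prim f, ‖DC χ n (n + X) 0‖ ^ 2 := by
  classical
  have h1 : ∑ f ∈ Icc 1 F, ∑ χ ∈ prim f, ‖DC χ n (n + X) 0‖ ^ 2 ≤
      ∑ f ∈ Icc 1 F, ((f : ℝ) / Nat.totient f) * ∑ χ ∈ prim f, ‖DC χ n (n + X) 0‖ ^ 2 := by
    refine sum_le_sum fun f hf => ?_
    have hf1 : 0 < f := (mem_Icc.1 hf).1
    have hφ : (0 : ℝ) < Nat.totient f := by exact_mod_cast Nat.totient_pos.2 hf1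
    have h2 : (1 : ℝ) ≤ (f : ℝ) / Nat.totient f := by
      rw [le_div_iff₀ hφ, one_mul]
      exact_mod_cast Nat.totient_le f
    have h3 : 0 ≤ ∑ χ ∈ prim f, ‖DC χ n (n + X) 0‖ ^ 2 := sum_nonneg fun _ _ => by positivity
    nlinarith
  refine le_trans ?_ h1
  rw [← sum_sigma (s := Icc 1 F) (t := fun f => prim f)
    (f := fun y : (Σ f : ℕ, DirichletCharacter ℂ f) => ‖DC y.2 n (n + X) 0‖ ^ 2)]
  set i : DirichletCharacter ℂ W → (Σ f : ℕ, DirichletCharacter ℂ f) :=
    fun χ => ⟨χ.conductor, χ.primitiveCharacter⟩ with hi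
  set j : (Σ f : ℕ, DirichletCharacter ℂ f) → DirichletCharacter ℂ W :=
    fun y => if h : y.1 ∣ W then DirichletCharacter.changeLevel h y.2 else 1 with hj
  have hinj : Function.Injective i := by
    refine Function.LeftInverse.injective (g := j) fun χ => ?_
    rw [hi, hj]
    simp only
    rw [dif_pos (DirichletCharacter.conductor_dvd_level χ)]
    exact DirichletCharacter.changeLevel_primitiveCharacter χ
  have h4 : ∑ χ : DirichletCharacter ℂ W, ‖DC χ.primitiveCharacter n (n + X) 0‖ ^ 2 =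
      ∑ y ∈ univ.image i, ‖DC y.2 n (n + X) 0‖ ^ 2 := by
    rw [sum_image fun _ _ _ _ h => hinj h]
  rw [h4]
  refine sum_le_sum_of_subset_of_nonneg ?_ fun _ _ _ => by positivity
  intro y hy
  rw [mem_image] at hy
  obtain ⟨χ, -, rfl⟩ := hy
  rw [mem_sigma, mem_Icc]
  refine ⟨⟨Nat.pos_of_ne_zero (DirichletCharacter.conductor_ne_zero χ), ?_⟩, ?_⟩
  · exact (Nat.le_of_dvd (Nat.pos_of_ne_zero (NeZero.ne W))
      (DirichletCharacter.conductor_dvd_level χ)).trans hF
  · unfold prim
    rw [mem_filter]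
    exact ⟨mem_univ _, DirichletCharacter.primitiveCharacter_isPrimitive χ⟩

open Classical in
/-- the mean square over the classes -/
theorem mean_sq {A X n F : ℕ} (hW : W ≤ X) (hF : W ≤ F) (hM : MSq A X F)
    (hn : n ∈ Ioc X (2 * X)) :
    (Nat.totient W : ℝ) * ∑ a ∈ univ.filter (fun a : ZMod W => IsUnit a),
      (th X n a - (X : ℝ) / Nat.totient W) ^ 2 ≤ (X : ℝ) ^ 2 / Real.log X ^ A := by
  rw [mem_Ioc] at hn
  have hφ : (Nat.totient W : ℝ) ≠ 0 := by
    exact_mod_cast (Nat.totient_pos.2 (Nat.pos_of_ne_zero (NeZero.ne W))).ne'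
  have hφc : (Nat.totient W : ℂ) ≠ 0 := by exact_mod_cast hφ
  have h1 := (hM n (n + X) (by omega) (by omega) (by omega)).2
  refine le_trans ?_ ((prim_sum (X := X) (n := n) hF).trans h1)
  rw [← parseval]
  refine (sum_congr rfl fun χ _ => ?_).le
  congr 2
  rw [DC_prim (by omega) χ, ← th_char]
  have h2 : ∀ a ∈ univ.filter (fun a : ZMod W => IsUnit a),
      ((th X n a - (X : ℝ) / Nat.totient W : ℝ) : ℂ) * χ a =
      (th X n a : ℂ) * χ a - (X : ℂ) / (Nat.totient W : ℂ) * χ a := by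
    intro a _
    push_cast
    ring
  rw [sum_congr rfl h2, sum_sub_distrib, ← mul_sum, sum_char]
  congr 1
  by_cases h : χ = 1
  · rw [if_pos h, if_pos h, div_mul_cancel₀ _ hφc]
  · rw [if_neg h, if_neg h, mul_zero]

/-- one class -/
theorem one_class {X n : ℕ} (hW2 : 2 * W ≤ X) (hn : W ≤ n) (β : ZMod W) [Decidable (IsUnit ((n : ZMod W) + β))] :
    |A1 X n β - (if IsUnit ((n : ZMod W) + β) then vv W else 0)| ≤
      if IsUnit ((n : ZMod W) + β) then
        2 * W / X * |th X n ((n : ZMod W) + β) - (X : ℝ) / Nat.totient W| + 2 * W / X * vv W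
      else 0 := by
  have hW : 0 < W := Nat.pos_of_ne_zero (NeZero.ne W)
  have hWr : (0 : ℝ) < W := by exact_mod_cast hW
  have hX : (0 : ℝ) < X := by
    have : 0 < X := by omega
    exact_mod_cast this
  have hφ : (0 : ℝ) < Nat.totient W := by exact_mod_cast Nat.totient_pos.2 hW
  unfold A1
  rw [sum_cls]
  by_cases h : IsUnit ((n : ZMod W) + β)
  · rw [if_pos h, if_pos h]
    have h1 := abs_le.1 (cls_card X β)
    set c : ℝ := ((cls X β).card : ℝ) with hc
    have hXW : (2 : ℝ) ≤ X / W := by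
      rw [le_div_iff₀ hWr]
      exact_mod_cast hW2
    have hc1 : (X : ℝ) / (2 * W) ≤ c := by
      have : (X : ℝ) / (2 * W) = X / W / 2 := by
        field_simp
      rw [this]
      linarith [h1.2]
    have hc0 : 0 < c := lt_of_lt_of_le (by positivity) hc1
    have hinv : 1 / c ≤ 2 * W / X := by
      rw [div_le_div_iff₀ hc0 hX]
      rw [div_le_iff₀ (by positivity)] at hc1
      linarith
    set t := th X n ((n : ZMod W) + β) with ht
    have e1 : t / c - vv W = (t - X / Nat.totient W) / c + (1 / Nat.totient W) * ((X - W * c) / c) := by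
      unfold vv
      field_simp
      ring
    rw [e1]
    have h2 : |(t - X / Nat.totient W) / c| ≤ 2 * W / X * |t - X / Nat.totient W| := by
      rw [abs_div, abs_of_pos hc0, div_eq_mul_one_div, mul_comm]
      exact mul_le_mul_of_nonneg_right hinv (abs_nonneg _)
    have h3 : |(1 / (Nat.totient W : ℝ)) * ((X - W * c) / c)| ≤ 2 * W / X * vv W := by
      rw [abs_mul, abs_of_pos (by positivity : (0 : ℝ) < 1 / (Nat.totient W : ℝ)), abs_div, abs_of_pos hc0]
      have e2 : |(X : ℝ) - W * c| ≤ W := by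
        have : (X : ℝ) - W * c = W * (X / W - c) := by
          field_simp
        rw [this, abs_mul, abs_of_pos hWr]
        calc (W : ℝ) * |X / W - c| ≤ W * 1 := mul_le_mul_of_nonneg_left (cls_card X β) hWr.le
          _ = W := mul_one _
      calc 1 / (Nat.totient W : ℝ) * (|(X : ℝ) - W * c| / c) = (1 / c) * (|(X : ℝ) - W * c| / Nat.totient W) := by
            ring
        _ ≤ (2 * W / X) * (W / Nat.totient W) := by
            refine mul_le_mul hinv ?_ (by positivity) (by positivity)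
            exact div_le_div_of_nonneg_right e2 hφ.le
    exact (abs_add_le _ _).trans (add_le_add h2 h3)
  · rw [if_neg h, if_neg h, th_nonunit hn h]
    simp

end

theorem t_H1 : S_H1 := by
  classical
  intro A z X F hX hWX hWF hM n hn
  have : NeZero (PW z) := inferInstance
  set W := PW z with hWdef
  have hW : 0 < W := Nat.pos_of_ne_zero (NeZero.ne W)
  have hWr : (0 : ℝ) < W := by exact_mod_cast hW
  have hXr : (0 : ℝ) < X := by
    have : 0 < X := by omega
    exact_mod_cast this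
  have hφn : 0 < Nat.totient W := Nat.totient_pos.2 hW
  have hφ : (0 : ℝ) < Nat.totient W := by exact_mod_cast hφn
  have hW4 : W ^ 4 ≤ X := by exact_mod_cast hWX
  have hW2 : 2 * W ≤ X := by
    rcases Nat.lt_or_ge W 2 with h | h
    · omega
    · have h1 : 8 ≤ W ^ 3 := by
        calc 8 = 2 ^ 3 := by norm_num
          _ ≤ W ^ 3 := Nat.pow_le_pow_left h 3
      have h2 : W ^ 4 = W ^ 3 * W := pow_succ _ _
      nlinarith
  have hn' := mem_Ioc.1 hn
  have hL : 0 < Real.log X := Real.log_pos (by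
    have : 1 < X := by omega
    exact_mod_cast this)
  set L := Real.log X with hLdef
  set G : ZMod W → ℝ := fun a => if IsUnit a then
    2 * W / X * |th X n a - (X : ℝ) / Nat.totient W| + 2 * W / X * vv W else 0 with hG
  have h1 : ∑ β : ZMod W, |A1 X n β - (if IsUnit ((n : ZMod W) + β) then vv W else 0)| ≤
      ∑ β : ZMod W, G ((n : ZMod W) + β) := by
    refine sum_le_sum fun β _ => ?_
    exact one_class hW2 (by omega) β
  have h2 : ∑ β : ZMod W, G ((n : ZMod W) + β) = ∑ a : ZMod W, G a :=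
    Equiv.sum_comp (Equiv.addLeft (n : ZMod W)) G
  have h3 : ∑ a : ZMod W, G a = ∑ a ∈ univ.filter (fun a : ZMod W => IsUnit a),
      (2 * W / X * |th X n a - (X : ℝ) / Nat.totient W| + 2 * W / X * vv W) := by
    rw [sum_filter]
  have hcard : ((univ.filter (fun a : ZMod W => IsUnit a)).card : ℝ) = Nat.totient W := by
    have := sum_char (W := W) 1
    rw [if_pos rfl] at this
    have h4 : ∑ a ∈ univ.filter (fun a : ZMod W => IsUnit a), (1 : DirichletCharacter ℂ W) a =
        ((univ.filter (fun a : ZMod W => IsUnit a)).card : ℂ) := by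
      rw [card_eq_sum_ones, Nat.cast_sum]
      refine sum_congr rfl fun a ha => ?_
      rw [mem_filter] at ha
      rw [MulChar.one_apply ha.2]
      simp
    rw [h4] at this
    exact_mod_cast this
  have h5 : ∑ a ∈ univ.filter (fun a : ZMod W => IsUnit a), |th X n a - (X : ℝ) / Nat.totient W| ≤
      X / L ^ A := by
    have h6 := mean_sq (W := W) (by omega) hWF hM hn
    have h7 := sum_mul_sq_le_sq_mul_sq (univ.filter (fun a : ZMod W => IsUnit a))
      (fun _ => (1 : ℝ)) (fun a => |th X n a - (X : ℝ) / Nat.totient W|)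
    simp only [one_mul, one_pow, sum_const, nsmul_eq_mul, mul_one, sq_abs] at h7
    rw [hcard] at h7
    have h8 : (∑ a ∈ univ.filter (fun a : ZMod W => IsUnit a), |th X n a - (X : ℝ) / Nat.totient W|) ^ 2 ≤
        (X / L ^ A) ^ 2 := by
      refine h7.trans (h6.trans ?_)
      rw [div_pow, ← pow_mul, mul_comm A 2]
    exact le_of_sq_le_sq h8 (by positivity)
  have hvφ : vv W * Nat.totient W = W := by
    unfold vv
    field_simp
  calc ∑ β : ZMod W, |A1 X n β - (if IsUnit ((n : ZMod W) + β) then vv W else 0)|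
      ≤ ∑ a ∈ univ.filter (fun a : ZMod W => IsUnit a),
        (2 * W / X * |th X n a - (X : ℝ) / Nat.totient W| + 2 * W / X * vv W) := by
        rw [← h3, ← h2]
        exact h1
    _ = 2 * W / X * (∑ a ∈ univ.filter (fun a : ZMod W => IsUnit a), |th X n a - (X : ℝ) / Nat.totient W|) +
        Nat.totient W * (2 * W / X * vv W) := by
        rw [sum_add_distrib, ← mul_sum, sum_const, nsmul_eq_mul, hcard]
    _ ≤ 2 * W / X * (X / L ^ A) + Nat.totient W * (2 * W / X * vv W) := by
        refine add_le_add_left (mul_le_mul_of_nonneg_left h5 (by positivity)) _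
    _ = (2 / L ^ A + 2 * W / X) * vv W * Nat.totient W := by
        rw [mul_assoc (2 / L ^ A + 2 * W / X) (vv W), hvφ]
        have : (Nat.totient W : ℝ) * (2 * W / X * vv W) = 2 * W / X * W := by
          rw [← hvφ]
          ring
        rw [this]
        field_simp

end Pool.Agent.Q98.SZ

namespace Pool.Agent.Q145.SZ

theorem t_H1 : S_H1 := Pool.Agent.Q98.SZ.t_H1

end Pool.Agent.Q145.SZ
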