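import Pool.Agent.Q145.SZ.Stm

/-!
Project SZ (helper145), LM: mean and mean square of the local factor.
-/

set_option autoImplicit false

namespace Pool.Agent.Q98.SZ

open Finset Filter
open Pool.Agent.Q145.SZ

section
variable {p K : ℕ}

/-- the tuples of residues -/
def RS (p K : ℕ) : Finset (Fin K → ℕ) := Fintype.piFinset (fun _ : Fin K => range p)

/-- avoiding `c` -/
def av (c a : ℕ) : ℝ := if a = c then 0 else 1

theorem prod_av (s : Fin K → ℕ) (c : ℕ) :
    ∏ i, av c (s i) = if c ∈ univ.image s then 0 else 1 := by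
  split_ifs with h
  · rw [mem_image] at h
    obtain ⟨i, _, hi⟩ := h
    refine prod_eq_zero (mem_univ i) ?_
    unfold av
    rw [if_pos hi]
  · refine prod_eq_one fun i _ => ?_
    unfold av
    rw [if_neg]
    intro hi
    exact h (mem_image.2 ⟨i, mem_univ i, hi⟩)

theorem nu_eq {s : Fin K → ℕ} (hs : s ∈ RS p K) :
    (p : ℝ) - nu s p = ∑ c ∈ range p, ∏ i, av c (s i) := by
  have h1 : ∀ i, s i ∈ range p := fun i => Fintype.mem_piFinset.1 hs i
  have h2 : univ.image s ⊆ range p := by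
    intro c hc
    rw [mem_image] at hc
    obtain ⟨i, _, rfl⟩ := hc
    exact h1 i
  have h3 : nu s p = (univ.image s).card := by
    unfold nu
    congr 1
    refine image_congr fun i _ => ?_
    exact Nat.mod_eq_of_lt (mem_range.1 (h1 i))
  rw [h3, sum_congr rfl fun c _ => prod_av s c]
  have h4 : ∑ c ∈ range p, (if c ∈ univ.image s then (0 : ℝ) else 1) =
      ((range p \ univ.image s).card : ℝ) := by
    rw [sum_ite, sum_const_zero, zero_add, sum_const, nsmul_eq_mul, mul_one]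
    congr 2
    ext c
    simp
  rw [h4, card_sdiff_of_subset h2, Nat.cast_sub (card_le_card h2), card_range]

theorem sum_pi (f : ℕ → ℝ) : ∑ s ∈ RS p K, ∏ i, f (s i) = (∑ a ∈ range p, f a) ^ K := by
  have := prod_univ_sum (fun _ : Fin K => range p) (fun _ a => f a)
  rw [prod_const, card_univ, Fintype.card_fin] at this
  exact this.symm

theorem sum_av {c : ℕ} (hc : c ∈ range p) : ∑ a ∈ range p, av c a = (p : ℝ) - 1 := by
  unfold av
  have : ∑ a ∈ range p, (if a = c then (0 : ℝ) else 1) = ∑ a ∈ range p, (1 - if a = c then (1 : ℝ) else 0) :=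
    sum_congr rfl fun a _ => by split_ifs <;> norm_num
  rw [this, sum_sub_distrib, sum_const, card_range, nsmul_eq_mul, mul_one, sum_ite_eq' _ c, if_pos hc]

theorem sum_av2 {c c' : ℕ} (hc : c ∈ range p) (hc' : c' ∈ range p) (h : c ≠ c') :
    ∑ a ∈ range p, av c a * av c' a = (p : ℝ) - 2 := by
  unfold av
  have : ∑ a ∈ range p, ((if a = c then (0 : ℝ) else 1) * (if a = c' then (0 : ℝ) else 1)) =
      ∑ a ∈ range p, (1 - (if a = c then (1 : ℝ) else 0) - if a = c' then (1 : ℝ) else 0) := by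
    refine sum_congr rfl fun a _ => ?_
    by_cases h1 : a = c
    · have h2 : a ≠ c' := by rw [h1]; exact h
      rw [if_pos h1, if_neg h2, if_pos h1, if_neg h2]; norm_num
    · rw [if_neg h1, if_neg h1]
      by_cases h2 : a = c'
      · rw [if_pos h2, if_pos h2]; norm_num
      · rw [if_neg h2, if_neg h2]; norm_num
  rw [this, sum_sub_distrib, sum_sub_distrib, sum_const, card_range, nsmul_eq_mul, mul_one,
    sum_ite_eq' _ c, if_pos hc, sum_ite_eq' _ c', if_pos hc']
  ring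

theorem first (p K : ℕ) : ∑ s ∈ RS p K, ((p : ℝ) - nu s p) = p * ((p : ℝ) - 1) ^ K := by
  rw [sum_congr rfl fun s hs => nu_eq hs, sum_comm]
  have : ∀ c ∈ range p, ∑ s ∈ RS p K, ∏ i, av c (s i) = ((p : ℝ) - 1) ^ K := fun c hc => by
    rw [sum_pi, sum_av hc]
  rw [sum_congr rfl this, sum_const, card_range, nsmul_eq_mul]

theorem second (p K : ℕ) : ∑ s ∈ RS p K, ((p : ℝ) - nu s p) ^ 2 =
    p * ((p : ℝ) - 1) ^ K + p * ((p : ℝ) - 1) * ((p : ℝ) - 2) ^ K := by
  have h1 : ∀ s ∈ RS p K, ((p : ℝ) - nu s p) ^ 2 =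
      ∑ c ∈ range p, ∑ c' ∈ range p, ∏ i, (av c (s i) * av c' (s i)) := by
    intro s hs
    rw [nu_eq hs, sq, sum_mul_sum]
    refine sum_congr rfl fun c _ => sum_congr rfl fun c' _ => ?_
    rw [prod_mul_distrib]
  rw [sum_congr rfl h1, sum_comm]
  have h2 : ∀ c ∈ range p, ∑ s ∈ RS p K, ∑ c' ∈ range p, ∏ i, (av c (s i) * av c' (s i)) =
      ((p : ℝ) - 1) ^ K + ((p : ℝ) - 1) * ((p : ℝ) - 2) ^ K := by
    intro c hc
    rw [sum_comm]
    have h3 : ∀ c' ∈ range p, ∑ s ∈ RS p K, ∏ i, (av c (s i) * av c' (s i)) =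
        if c' = c then ((p : ℝ) - 1) ^ K else ((p : ℝ) - 2) ^ K := by
      intro c' hc'
      rw [sum_pi (fun a => av c a * av c' a)]
      by_cases h : c' = c
      · rw [if_pos h, h]
        have : ∀ a ∈ range p, av c a * av c a = av c a := by
          intro a _
          unfold av
          split_ifs <;> norm_num
        rw [sum_congr rfl this, sum_av hc]
      · rw [if_neg h, sum_av2 hc hc' (fun h' => h h'.symm)]
    rw [sum_congr rfl h3, sum_ite, sum_const, sum_const, filter_eq', if_pos hc, card_singleton,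
      filter_ne', card_erase_of_mem hc, card_range, nsmul_eq_mul, nsmul_eq_mul, Nat.cast_one, one_mul,
      Nat.cast_sub (by have := mem_range.1 hc; omega), Nat.cast_one]
  rw [sum_congr rfl h2, sum_const, card_range, nsmul_eq_mul]
  ring

end

theorem exp_neg_le {y : ℝ} (hy : 0 ≤ y) (hy1 : y ≤ 1) : Real.exp (-y) ≤ 1 - y + y ^ 2 := by
  have := Real.abs_exp_sub_one_sub_id_le (x := -y) (by rw [abs_neg, abs_of_nonneg hy]; exact hy1)
  rw [abs_le] at this
  nlinarith [this.2]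

theorem exp_le' {y : ℝ} (hy : 0 ≤ y) (hy1 : y ≤ 1) : Real.exp y ≤ 1 + y + y ^ 2 := by
  have := Real.abs_exp_sub_one_sub_id_le (x := y) (by rw [abs_of_nonneg hy]; exact hy1)
  rw [abs_le] at this
  linarith [this.2]

theorem t_LM : S_LM := by
  intro p K hp hK
  have hp2 : (2 : ℝ) ≤ p := by exact_mod_cast hp.two_le
  have hp0 : (0 : ℝ) < p := by linarith
  have hq : (0 : ℝ) < (p : ℝ) - 1 := by linarith
  have hr : (0 : ℝ) < 1 - 1 / (p : ℝ) := by
    rw [sub_pos, div_lt_one hp0]; linarith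
  have hr1 : 1 - 1 / (p : ℝ) = ((p : ℝ) - 1) / p := by field_simp
  have hloc : ∀ s : Fin K → ℕ, loc s p = ((p : ℝ) - nu s p) * ((p : ℝ) * (1 - 1 / (p : ℝ)) ^ K)⁻¹ := by
    intro s
    unfold loc
    have : (0 : ℝ) < (1 - 1 / (p : ℝ)) ^ K := by positivity
    field_simp
  have hcard : ((RS p K).card : ℝ) = (p : ℝ) ^ K := by
    unfold RS
    rw [Fintype.card_piFinset, prod_const, card_range, card_univ, Fintype.card_fin]
    push_cast
    rfl
  have hmean : ∑ s ∈ RS p K, loc s p = (p : ℝ) ^ K := by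
    rw [sum_congr rfl fun s _ => hloc s, ← sum_mul, first, hr1]
    rw [div_pow]
    field_simp
  constructor
  · change ∑ s ∈ RS p K, (loc s p - 1) = 0
    rw [sum_sub_distrib, hmean, sum_const, nsmul_eq_mul, mul_one, hcard, sub_self]
  · change ∑ s ∈ RS p K, (loc s p - 1) ^ 2 ≤ _
    have h1 : ∑ s ∈ RS p K, (loc s p - 1) ^ 2 = (∑ s ∈ RS p K, loc s p ^ 2) - (p : ℝ) ^ K := by
      have : ∀ s ∈ RS p K, (loc s p - 1) ^ 2 = loc s p ^ 2 - 2 * loc s p + 1 := fun s _ => by ring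
      rw [sum_congr rfl this, sum_add_distrib, sum_sub_distrib, ← mul_sum, hmean, sum_const,
        nsmul_eq_mul, mul_one, hcard]
      ring
    have h2 : ∑ s ∈ RS p K, loc s p ^ 2 = (p : ℝ) ^ K * ((1 / p) * (p / ((p : ℝ) - 1)) ^ K +
        (1 - 1 / p) * (1 - 1 / ((p : ℝ) - 1) ^ 2) ^ K) := by
      have e1 : ∀ s ∈ RS p K, loc s p ^ 2 =
          ((p : ℝ) - nu s p) ^ 2 * (((p : ℝ) * (1 - 1 / (p : ℝ)) ^ K)⁻¹) ^ 2 := fun s _ => by
        rw [hloc s, mul_pow]
      rw [sum_congr rfl e1, ← sum_mul, second, hr1]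
      have e2 : (1 - 1 / ((p : ℝ) - 1) ^ 2) = (p : ℝ) * ((p : ℝ) - 2) / ((p : ℝ) - 1) ^ 2 := by
        field_simp
        ring
      rw [e2, div_pow, div_pow, div_pow, mul_pow]
      have hq' : ((p : ℝ) - 1) ≠ 0 := hq.ne'
      have hpK : (p : ℝ) ^ K ≠ 0 := by positivity
      have hqK : ((p : ℝ) - 1) ^ K ≠ 0 := by positivity
      have e3 : (((p : ℝ) - 1) ^ 2) ^ K = ((p : ℝ) - 1) ^ K * ((p : ℝ) - 1) ^ K := by
        rw [← pow_mul, mul_comm, pow_mul, sq]
      rw [e3]
      field_simp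
    rw [h1, h2]
    rcases Nat.eq_zero_or_pos K with hK0 | hK0
    · subst hK0
      simp
    have hK1 : (1 : ℝ) ≤ K := by exact_mod_cast hK0
    have hKp : 8 * (K : ℝ) ≤ p := by exact_mod_cast hK
    set q : ℝ := (p : ℝ) - 1 with hqd
    have hpq : (p : ℝ) = q + 1 := by rw [hqd]; ring
    have hKq : (K : ℝ) ≤ q := by linarith
    set x : ℝ := K / q with hx
    have hx0 : 0 ≤ x := by positivity
    have hx1 : x ≤ 1 := (div_le_one hq).2 hKq
    have hq1 : 1 ≤ q := by linarith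
    have h3 : ((p : ℝ) / q) ^ K ≤ 1 + x + x ^ 2 := by
      have e1 : (p : ℝ) / q = 1 + 1 / q := by rw [hpq]; field_simp
      have e2 : 1 + 1 / q ≤ Real.exp (1 / q) := by
        have := Real.add_one_le_exp (1 / q)
        linarith
      calc ((p : ℝ) / q) ^ K ≤ Real.exp (1 / q) ^ K := by
            rw [e1]
            exact pow_le_pow_left₀ (by positivity) e2 K
        _ = Real.exp x := by
            rw [← Real.exp_nat_mul]
            congr 1
            rw [hx]; ring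
        _ ≤ _ := exp_le' hx0 hx1
    have h4 : (1 - 1 / q ^ 2) ^ K ≤ 1 - x / q + (x / q) ^ 2 := by
      have e0 : 0 ≤ 1 - 1 / q ^ 2 := by
        rw [sub_nonneg, div_le_one (by positivity)]
        nlinarith
      have e2 : 1 - 1 / q ^ 2 ≤ Real.exp (-(1 / q ^ 2)) := by
        have := Real.add_one_le_exp (-(1 / q ^ 2))
        linarith
      calc (1 - 1 / q ^ 2) ^ K ≤ Real.exp (-(1 / q ^ 2)) ^ K := pow_le_pow_left₀ e0 e2 K
        _ = Real.exp (-(x / q)) := by
            rw [← Real.exp_nat_mul]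
            congr 1
            rw [hx]
            field_simp
        _ ≤ _ := exp_neg_le (by positivity) (by
            rw [div_le_one hq]
            linarith)
    have hpK : (0 : ℝ) < (p : ℝ) ^ K := by positivity
    have h5 : 1 / (p : ℝ) * (p / q) ^ K + (1 - 1 / p) * (1 - 1 / q ^ 2) ^ K ≤ 1 + 8 * (K : ℝ) ^ 2 / (p : ℝ) ^ 3 := by
      have e1 : 1 / (p : ℝ) * (p / q) ^ K ≤ 1 / (p : ℝ) * (1 + x + x ^ 2) :=
        mul_le_mul_of_nonneg_left h3 (by positivity)
      have e2 : (1 - 1 / (p : ℝ)) * (1 - 1 / q ^ 2) ^ K ≤ (1 - 1 / p) * (1 - x / q + (x / q) ^ 2) :=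
        mul_le_mul_of_nonneg_left h4 hr.le
      have e3 : 1 / (p : ℝ) * (1 + x + x ^ 2) + (1 - 1 / p) * (1 - x / q + (x / q) ^ 2) =
          1 + (K : ℝ) ^ 2 / q ^ 3 := by
        rw [hx, hpq]
        field_simp
        ring
      have e4 : (K : ℝ) ^ 2 / q ^ 3 ≤ 8 * (K : ℝ) ^ 2 / (p : ℝ) ^ 3 := by
        rw [div_le_div_iff₀ (by positivity) (by positivity)]
        have e5 : (p : ℝ) ^ 3 ≤ (2 * q) ^ 3 := pow_le_pow_left₀ hp0.le (by linarith) 3
        have e6 : (2 * q) ^ 3 = 8 * q ^ 3 := by ring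
        rw [e6] at e5
        have := mul_le_mul_of_nonneg_left e5 (sq_nonneg (K : ℝ))
        linarith
      linarith
    nlinarith [mul_le_mul_of_nonneg_left h5 hpK.le]

end Pool.Agent.Q98.SZ

/-- the job LM -/
theorem Pool.Agent.Q145.SZ.t_LM : Pool.Agent.Q145.SZ.S_LM := Pool.Agent.Q98.SZ.t_LM
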