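import Pool.Agent.Q145.SZ.Stm

/-!
Project SZ (helper145), MOM1: the first moment.
-/

set_option autoImplicit false

namespace Pool.Agent.Q98.SZ

open Finset Filter
open Pool.Agent.Q145.SZ

theorem wt_nonneg (u : ℕ) : 0 ≤ wt u := by
  unfold wt
  split_ifs with h
  · exact Real.log_natCast_nonneg u
  · exact le_rfl

theorem prod_lower {ι : Type*} (T : Finset ι) (x : ι → ℝ) (hx : ∀ i, 0 ≤ x i) :
    1 - ∑ i ∈ T, |x i - 1| ≤ ∏ i ∈ T, x i := by
  classical
  induction T using Finset.induction_on with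
  | empty => simp
  | insert a T ha ih =>
    rw [sum_insert ha, prod_insert ha]
    have hP : 0 ≤ ∏ i ∈ T, x i := prod_nonneg fun i _ => hx i
    have hS : 0 ≤ ∑ i ∈ T, |x i - 1| := sum_nonneg fun i _ => abs_nonneg _
    have h1 := abs_nonneg (x a - 1)
    have h2 := neg_abs_le (x a - 1)
    have h3 := hx a
    rcases le_or_gt (1 - ∑ i ∈ T, |x i - 1|) 0 with h | h
    · have := mul_nonneg h3 hP
      linarith
    · have h4 := mul_le_mul_of_nonneg_left ih h3
      nlinarith

section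
variable {W : ℕ} [NeZero W]

omit [NeZero W] in
theorem A1_nonneg (X n : ℕ) (β : ZMod W) : 0 ≤ A1 X n β := by
  unfold A1
  exact div_nonneg (sum_nonneg fun s _ => wt_nonneg _) (Nat.cast_nonneg _)

omit [NeZero W] in
theorem E_eq {K : ℕ} (X : ℕ) (b : Fin K → ZMod W) :
    (∑ s ∈ Sb X b, wc X s) / ((Sb X b).card : ℝ) = ∑ n ∈ Ioc X (2 * X), ∏ i, A1 X n (b i) := by
  have h1 : ∑ s ∈ Sb X b, wc X s = ∑ n ∈ Ioc X (2 * X), ∏ i, ∑ s ∈ cls X (b i), wt (n + s) := by
    unfold wc
    rw [sum_comm]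
    refine sum_congr rfl fun n _ => ?_
    unfold Sb
    rw [prod_univ_sum]
  rw [h1, sum_div]
  refine sum_congr rfl fun n _ => ?_
  unfold A1 Sb
  rw [Fintype.card_piFinset, Nat.cast_prod, prod_div_distrib]

theorem class_count (X : ℕ) (c : ZMod W) :
    (X : ℝ) / W - 1 ≤ (((Ioc X (2 * X)).filter fun n : ℕ => (n : ZMod W) = c).card : ℝ) := by
  have hW : 0 < W := Nat.pos_of_ne_zero (NeZero.ne W)
  have h1 : (Ioc X (2 * X)).filter (fun n : ℕ => (n : ZMod W) = c) =
      (Ioc X (2 * X)).filter (fun n : ℕ => n ≡ c.val [MOD W]) := by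
    refine filter_congr fun n _ => ?_
    rw [← ZMod.natCast_eq_natCast_iff, ZMod.natCast_zmod_val]
  have h2 := Nat.Ioc_filter_modEq_card X (2 * X) hW c.val
  rw [h1]
  have h3 : (⌊(((2 * X : ℕ) : ℚ) - c.val) / W⌋ - ⌊((X : ℚ) - c.val) / W⌋ : ℤ) ≤
      (((Ioc X (2 * X)).filter (fun n : ℕ => n ≡ c.val [MOD W])).card : ℤ) := by
    rw [h2]
    exact le_max_left _ _
  have hWq : (0 : ℚ) < W := by exact_mod_cast hW
  have h4 : ((X : ℚ) / W - 1 : ℚ) ≤
      (((Ioc X (2 * X)).filter (fun n : ℕ => n ≡ c.val [MOD W])).card : ℚ) := by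
    have e1 : ((⌊(((2 * X : ℕ) : ℚ) - c.val) / W⌋ : ℤ) : ℚ) - ((⌊((X : ℚ) - c.val) / W⌋ : ℤ) : ℚ) ≤
      (((Ioc X (2 * X)).filter (fun n : ℕ => n ≡ c.val [MOD W])).card : ℚ) := by
      exact_mod_cast h3
    have e2 := Int.sub_one_lt_floor ((((2 * X : ℕ) : ℚ) - c.val) / W)
    have e3 := Int.floor_le (((X : ℚ) - c.val) / W)
    have e4 : (((2 * X : ℕ) : ℚ) - c.val) / W - ((X : ℚ) - c.val) / W = (X : ℚ) / W := by
      push_cast
      field_simp
      ring
    linarith
  have h5 := (Rat.cast_le (K := ℝ)).2 h4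
  push_cast at h5
  exact h5

end

open Classical in
theorem t_MOM1 : S_MOM1 := by
  intro hLAW W _ X K ε₁ hWX hA
  have hW : 0 < W := Nat.pos_of_ne_zero (NeZero.ne W)
  have hWr : (0 : ℝ) < W := by exact_mod_cast hW
  have hX : 0 < X := lt_of_lt_of_le hW hWX
  have hXr : (0 : ℝ) < X := by exact_mod_cast hX
  have hφ : (0 : ℝ) < Nat.totient W := by exact_mod_cast Nat.totient_pos.2 hW
  set v : ℝ := vv W with hv
  have hv0 : 0 < v := div_pos hWr hφ
  set er : ℕ → Fin K → (Fin K → ZMod W) → ℝ := fun n i b =>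
    if (n : ZMod W) ∈ Gs b then ((Gs b).card : ℝ)⁻¹ * |A1 X n (b i) / v - 1| else 0 with her
  have her0 : ∀ n i b, 0 ≤ er n i b := by
    intro n i b
    rw [her]
    simp only
    split_ifs <;> positivity
  -- one tuple of classes
  have hone : ∀ b ∈ Ad W K, 1 - (W : ℝ) / X - W / X * ∑ n ∈ Ioc X (2 * X), ∑ i, er n i b ≤
      (∑ s ∈ Sb X b, wc X s / Mb X b) / (Sb X b).card := by
    intro b hb
    unfold Ad at hb
    rw [mem_filter] at hb
    have hg : (0 : ℝ) < (Gs b).card := by exact_mod_cast hb.2.card_pos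
    have h1 : (∑ s ∈ Sb X b, wc X s / Mb X b) / ((Sb X b).card : ℝ) =
        (∑ n ∈ Ioc X (2 * X), ∏ i, A1 X n (b i)) / Mb X b := by
      rw [← sum_div, div_div, mul_comm, ← div_div, E_eq]
    rw [h1]
    have h2 : (∑ n ∈ (Ioc X (2 * X)).filter (fun n : ℕ => (n : ZMod W) ∈ Gs b),
        (1 - ∑ i, |A1 X n (b i) / v - 1|)) * v ^ K ≤ ∑ n ∈ Ioc X (2 * X), ∏ i, A1 X n (b i) := by
      rw [sum_mul]
      refine le_trans ?_ (sum_le_sum_of_subset_of_nonneg
        (filter_subset (fun n : ℕ => (n : ZMod W) ∈ Gs b) _)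
        fun n _ _ => prod_nonneg fun i _ => A1_nonneg X n (b i))
      refine sum_le_sum fun n _ => ?_
      have h3 := prod_lower univ (fun i => A1 X n (b i) / v) fun i => div_nonneg (A1_nonneg _ _ _) hv0.le
      rw [prod_div_distrib, prod_const, card_univ, Fintype.card_fin] at h3
      have h4 := mul_le_mul_of_nonneg_right h3 (by positivity : 0 ≤ v ^ K)
      rwa [div_mul_cancel₀ _ (by positivity)] at h4
    have h3 : ((Gs b).card : ℝ) * ((X : ℝ) / W - 1) ≤
        (((Ioc X (2 * X)).filter (fun n : ℕ => (n : ZMod W) ∈ Gs b)).card : ℝ) := by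
      have e1 : (Ioc X (2 * X)).filter (fun n : ℕ => (n : ZMod W) ∈ Gs b) =
          (Gs b).biUnion fun c => (Ioc X (2 * X)).filter fun n : ℕ => (n : ZMod W) = c := by
        ext n
        simp only [mem_filter, mem_biUnion]
        constructor
        · rintro ⟨h, h'⟩
          exact ⟨_, h', h, rfl⟩
        · rintro ⟨c, hc, h, rfl⟩
          exact ⟨h, hc⟩
      rw [e1, card_biUnion]
      · rw [Nat.cast_sum]
        calc ((Gs b).card : ℝ) * ((X : ℝ) / W - 1) = ∑ _c ∈ Gs b, ((X : ℝ) / W - 1) := by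
              rw [sum_const, nsmul_eq_mul]
          _ ≤ _ := sum_le_sum fun c _ => class_count X c
      · intro c _ c' _ hcc'
        rw [Function.onFun, disjoint_left]
        intro n hn hn'
        rw [mem_filter] at hn hn'
        exact hcc' (hn.2.symm.trans hn'.2)
    have h4 : ∑ n ∈ (Ioc X (2 * X)).filter (fun n : ℕ => (n : ZMod W) ∈ Gs b),
        (1 - ∑ i, |A1 X n (b i) / v - 1|) =
        (((Ioc X (2 * X)).filter (fun n : ℕ => (n : ZMod W) ∈ Gs b)).card : ℝ) -
          (Gs b).card * ∑ n ∈ Ioc X (2 * X), ∑ i, er n i b := by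
      rw [sum_sub_distrib, sum_const, nsmul_eq_mul, mul_one]
      congr 1
      rw [sum_filter, mul_sum]
      refine sum_congr rfl fun n _ => ?_
      rw [her]
      simp only
      by_cases hn : (n : ZMod W) ∈ Gs b
      · simp only [if_pos hn]
        rw [← mul_sum, ← mul_assoc, mul_inv_cancel₀ hg.ne', one_mul]
      · simp only [if_neg hn, sum_const_zero, mul_zero]
    rw [h4] at h2
    have hMb : Mb X b = X * ((Gs b).card : ℝ) / W * v ^ K := rfl
    have hMb0 : 0 < Mb X b := by rw [hMb]; positivity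
    rw [le_div_iff₀ hMb0]
    refine le_trans ?_ h2
    rw [hMb]
    have h5 : (1 - (W : ℝ) / X - W / X * ∑ n ∈ Ioc X (2 * X), ∑ i, er n i b) *
        (X * ((Gs b).card : ℝ) / W * v ^ K) =
        (((Gs b).card : ℝ) * ((X : ℝ) / W - 1) -
          (Gs b).card * ∑ n ∈ Ioc X (2 * X), ∑ i, er n i b) * v ^ K := by
      field_simp
    rw [h5]
    exact mul_le_mul_of_nonneg_right (by linarith) (by positivity)
  -- the errors
  have herr : ∀ n ∈ Ioc X (2 * X), ∀ i : Fin K, ∑ b : Fin K → ZMod W, er n i b ≤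
      ((Ad W K).card : ℝ) * ε₁ / W := by
    intro n hn i
    have h1 : ∑ b : Fin K → ZMod W, er n i b = ∑ β : ZMod W, ∑ b : Fin K → ZMod W,
        (if (n : ZMod W) ∈ Gs b ∧ b i = β then ((Gs b).card : ℝ)⁻¹ else 0) * |A1 X n β / v - 1| := by
      rw [sum_comm]
      refine sum_congr rfl fun b _ => ?_
      rw [Finset.sum_eq_single (b i)]
      · rw [her]
        by_cases hn' : (n : ZMod W) ∈ Gs b
        · simp only [hn', true_and, if_true]
        · simp only [hn', false_and, if_false, zero_mul]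
      · intro β _ hβ
        rw [if_neg (fun h => hβ h.2.symm), zero_mul]
      · intro h
        exact absurd (mem_univ _) h
    rw [h1]
    have h2 : ∀ β : ZMod W, ∑ b : Fin K → ZMod W,
        (if (n : ZMod W) ∈ Gs b ∧ b i = β then ((Gs b).card : ℝ)⁻¹ else 0) * |A1 X n β / v - 1| ≤
        ((Ad W K).card : ℝ) / (W * Nat.totient W) / v *
          |A1 X n β - (if IsUnit ((n : ZMod W) + β) then v else 0)| := by
      intro β
      rw [← sum_mul]
      have h3 := hLAW W K i (n : ZMod W) β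
      rw [h3]
      by_cases hu : IsUnit ((n : ZMod W) + β)
      · rw [if_pos hu, if_pos hu]
        have h4 : |A1 X n β / v - 1| = |A1 X n β - v| / v := by
          rw [show A1 X n β / v - 1 = (A1 X n β - v) / v by field_simp, abs_div, abs_of_pos hv0]
        rw [h4]
        apply le_of_eq
        ring
      · rw [if_neg hu, zero_mul]
        positivity
    refine (sum_le_sum fun β _ => h2 β).trans ?_
    rw [← mul_sum]
    have h3 := mul_le_mul_of_nonneg_left (hA n hn)
      (by positivity : 0 ≤ ((Ad W K).card : ℝ) / (W * Nat.totient W) / v)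
    refine h3.trans (le_of_eq ?_)
    field_simp
  -- the sum
  calc (1 - (W : ℝ) / X - K * ε₁) * (Ad W K).card
      ≤ ∑ b ∈ Ad W K, (1 - (W : ℝ) / X - W / X * ∑ n ∈ Ioc X (2 * X), ∑ i, er n i b) := by
        rw [sum_sub_distrib, sum_const, nsmul_eq_mul, ← mul_sum]
        have h1 : ∑ b ∈ Ad W K, ∑ n ∈ Ioc X (2 * X), ∑ i, er n i b ≤
            X * (K * (((Ad W K).card : ℝ) * ε₁ / W)) := by
          calc ∑ b ∈ Ad W K, ∑ n ∈ Ioc X (2 * X), ∑ i, er n i b
              ≤ ∑ b : Fin K → ZMod W, ∑ n ∈ Ioc X (2 * X), ∑ i, er n i b :=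
                sum_le_sum_of_subset_of_nonneg (subset_univ _)
                  fun b _ _ => sum_nonneg fun n _ => sum_nonneg fun i _ => her0 n i b
            _ = ∑ n ∈ Ioc X (2 * X), ∑ i, ∑ b : Fin K → ZMod W, er n i b := by
                rw [sum_comm]
                refine sum_congr rfl fun n _ => ?_
                rw [sum_comm]
            _ ≤ ∑ _n ∈ Ioc X (2 * X), ∑ _i : Fin K, ((Ad W K).card : ℝ) * ε₁ / W :=
                sum_le_sum fun n hn => sum_le_sum fun i _ => herr n hn i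
            _ = X * (K * (((Ad W K).card : ℝ) * ε₁ / W)) := by
                rw [sum_const, sum_const, card_univ, Fintype.card_fin, Nat.card_Ioc, nsmul_eq_mul,
                  nsmul_eq_mul]
                congr 2
                omega
        have h2 := mul_le_mul_of_nonneg_left h1 (by positivity : 0 ≤ (W : ℝ) / X)
        have h3 : (W : ℝ) / X * (X * (K * (((Ad W K).card : ℝ) * ε₁ / W))) =
            K * ε₁ * (Ad W K).card := by
          field_simp
        rw [h3] at h2
        linarith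
    _ ≤ _ := sum_le_sum fun b hb => hone b hb

end Pool.Agent.Q98.SZ

/-- the job MOM1 -/
theorem Pool.Agent.Q145.SZ.t_MOM1 : Pool.Agent.Q145.SZ.S_MOM1 := Pool.Agent.Q98.SZ.t_MOM1
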